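import Pool.Agent.Helper26.LU.Goals

/-!
# Project LU, goal T1e: uniform bounds near `p₀`
-/

namespace Pool.Agent.Helper31.LU

open Pool.Agent.Helper26.LU Filter Topology Real

set_option linter.unusedSectionVars false

section gen

variable {P : Type} [NormedAddCommGroup P] [NormedSpace ℝ P]
variable {E : Type} [NormedAddCommGroup E] [NormedSpace ℝ E]

/-- The two periods. -/
noncomputable def cx (P : Type) [NormedAddCommGroup P] : P × ℝ × ℝ := (0, (2 * π, 0))
noncomputable def cy (P : Type) [NormedAddCommGroup P] : P × ℝ × ℝ := (0, (0, 2 * π))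

/-- Periodicity on the product. -/
def PerP {X : Type} (G : P × ℝ × ℝ → X) : Prop :=
  ∀ w, G (w + cx P) = G w ∧ G (w + cy P) = G w

theorem PerP.fd {G : P × ℝ × ℝ → E} (h : PerP G) (u : P × ℝ × ℝ) :
    PerP (fun w => fderiv ℝ G w u) := by
  intro w
  have h1 : (fun w => G (w + cx P)) = G := funext fun w => (h w).1
  have h2 : (fun w => G (w + cy P)) = G := funext fun w => (h w).2
  constructor
  · have := fderiv_comp_add_right (𝕜 := ℝ) (f := G) (x := w) (cx P)
    rw [h1] at this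
    simp only [this]
  · have := fderiv_comp_add_right (𝕜 := ℝ) (f := G) (x := w) (cy P)
    rw [h2] at this
    simp only [this]

theorem int_per {q : ℝ → Prop} (h : ∀ x, q (x + 2 * π) ↔ q x) (h0 : ∀ x ∈ Set.Icc (0 : ℝ) (2 * π), q x)
    (x : ℝ) : q x := by
  have hp : (0 : ℝ) < 2 * π := by positivity
  have hper : Function.Periodic q (2 * π) := fun x => propext (h x)
  obtain ⟨y, hy, hxy⟩ := hper.exists_mem_Ico₀ hp x
  rw [hxy]
  exact h0 y ⟨hy.1, hy.2.le⟩

/-- Tube lemma with periodicity. -/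
theorem tube {q : P × ℝ × ℝ → Prop} (hq : PerP q) (p₀ : P)
    (h : ∀ z : ℝ × ℝ, ∀ᶠ w in 𝓝 (p₀, z), q w) : ∀ᶠ p in 𝓝 p₀, ∀ z : ℝ × ℝ, q (p, z) := by
  have hK : IsCompact (Set.Icc (0 : ℝ) (2 * π) ×ˢ Set.Icc (0 : ℝ) (2 * π)) :=
    isCompact_Icc.prod isCompact_Icc
  have h1 := hK.eventually_forall_of_forall_eventually (x₀ := p₀) (P := fun p z => q (p, z))
    (fun z _ => by
      have := h z
      simpa using this)
  filter_upwards [h1] with p hp
  rintro ⟨x, y⟩
  have ex : ∀ x y, q (p, (x + 2 * π, y)) ↔ q (p, (x, y)) := by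
    intro x y
    have := (hq (p, (x, y))).1
    simp only [cx, Prod.mk_add_mk, add_zero] at this
    rw [this]
  have ey : ∀ x y, q (p, (x, y + 2 * π)) ↔ q (p, (x, y)) := by
    intro x y
    have := (hq (p, (x, y))).2
    simp only [cy, Prod.mk_add_mk, add_zero] at this
    rw [this]
  refine int_per (q := fun x => q (p, (x, y))) (fun x => ex x y) (fun x hx => ?_) x
  refine int_per (q := fun y => q (p, (x, y))) (fun y => ey x y) (fun y hy => ?_) y
  exact hp (x, y) ⟨hx, hy⟩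

theorem near {G : P × ℝ × ℝ → E} (hG : PerP G) (p₀ : P)
    (hc : ∀ z : ℝ × ℝ, ContinuousAt G (p₀, z)) {ε : ℝ} (hε : 0 < ε) :
    ∀ᶠ p in 𝓝 p₀, ∀ z : ℝ × ℝ, ‖G (p, z) - G (p₀, z)‖ ≤ ε := by
  have := tube (q := fun w => ‖G w - G (p₀, w.2)‖ ≤ ε) ?_ p₀ ?_
  · exact this
  · intro w
    have e1 := hG w
    have e2 := hG (p₀, w.2)
    have a1 : ((p₀, w.2) : P × ℝ × ℝ) + cx P = (p₀, (w + cx P).2) := by simp [cx]
    have a2 : ((p₀, w.2) : P × ℝ × ℝ) + cy P = (p₀, (w + cy P).2) := by simp [cy]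
    rw [a1, a2] at e2
    simp only [e1.1, e1.2, e2.1, e2.2, and_self]
  · intro z
    have c1 : ContinuousAt (fun w : P × ℝ × ℝ => G w - G (p₀, w.2)) (p₀, z) := by
      refine (hc z).sub ?_
      have : ContinuousAt G ((fun w : P × ℝ × ℝ => ((p₀, w.2) : P × ℝ × ℝ)) (p₀, z)) := hc z
      exact ContinuousAt.comp this (by fun_prop)
    have c2 : ContinuousAt (fun w : P × ℝ × ℝ => ‖G w - G (p₀, w.2)‖) (p₀, z) := c1.norm
    have : ∀ᶠ w in 𝓝 ((p₀, z) : P × ℝ × ℝ), ‖G w - G (p₀, w.2)‖ < ε := by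
      apply c2.eventually_lt_const
      simpa using hε
    exact this.mono fun w hw => hw.le

theorem bdd {G : P × ℝ × ℝ → E} (hG : PerP G) (p₀ : P)
    (hc : ∀ z : ℝ × ℝ, ContinuousAt G (p₀, z)) :
    ∃ B : ℝ, ∀ᶠ p in 𝓝 p₀, ∀ z : ℝ × ℝ, ‖G (p, z)‖ ≤ B := by
  have hK : IsCompact (Set.Icc (0 : ℝ) (2 * π) ×ˢ Set.Icc (0 : ℝ) (2 * π)) :=
    isCompact_Icc.prod isCompact_Icc
  have hcont : Continuous (fun z : ℝ × ℝ => G (p₀, z)) := by
    rw [continuous_iff_continuousAt]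
    intro z
    have : ContinuousAt G ((fun z : ℝ × ℝ => ((p₀, z) : P × ℝ × ℝ)) z) := hc z
    exact ContinuousAt.comp this (by fun_prop)
  obtain ⟨B₀, hB₀⟩ := hK.exists_bound_of_continuousOn hcont.continuousOn
  have hall : ∀ z : ℝ × ℝ, ‖G (p₀, z)‖ ≤ B₀ := by
    rintro ⟨x, y⟩
    refine int_per (q := fun x => ‖G (p₀, (x, y))‖ ≤ B₀) (fun x => ?_) (fun x hx => ?_) x
    · have := (hG (p₀, (x, y))).1
      simp only [cx, Prod.mk_add_mk, add_zero] at this
      rw [this]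
    refine int_per (q := fun y => ‖G (p₀, (x, y))‖ ≤ B₀) (fun y => ?_) (fun y hy => ?_) y
    · have := (hG (p₀, (x, y))).2
      simp only [cy, Prod.mk_add_mk, add_zero] at this
      rw [this]
    exact hB₀ (x, y) ⟨hx, hy⟩
  refine ⟨B₀ + 1, ?_⟩
  filter_upwards [near hG p₀ hc one_pos] with p hp z
  calc ‖G (p, z)‖ = ‖(G (p, z) - G (p₀, z)) + G (p₀, z)‖ := by rw [sub_add_cancel]
    _ ≤ ‖G (p, z) - G (p₀, z)‖ + ‖G (p₀, z)‖ := norm_add_le _ _
    _ ≤ B₀ + 1 := by linarith [hp z, hall z]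

/-- The partial derivative in a direction of the second factor. -/
theorem fd_slice {G : P × ℝ × ℝ → E} {p : P} {z : ℝ × ℝ} (h : DifferentiableAt ℝ G (p, z))
    (v : ℝ × ℝ) : fderiv ℝ (fun z => G (p, z)) z v = fderiv ℝ G (p, z) (0, v) := by
  have h1 : HasFDerivAt (fun z : ℝ × ℝ => ((p, z) : P × ℝ × ℝ))
      (ContinuousLinearMap.inr ℝ P (ℝ × ℝ)) z := hasFDerivAt_prodMk_right p z
  have h2 : HasFDerivAt G (fderiv ℝ G (p, z)) ((fun z : ℝ × ℝ => ((p, z) : P × ℝ × ℝ)) z) :=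
    h.hasFDerivAt
  have h3 := h2.comp z h1
  have h4 : fderiv ℝ (fun z => G (p, z)) z
      = (fderiv ℝ G (p, z)).comp (ContinuousLinearMap.inr ℝ P (ℝ × ℝ)) := h3.fderiv
  rw [h4]
  simp

theorem cd_fd {G : P × ℝ × ℝ → E} {w : P × ℝ × ℝ} {n m : ℕ∞} (h : ContDiffAt ℝ n G w)
    (hmn : m + 1 ≤ n) (u : P × ℝ × ℝ) : ContDiffAt ℝ m (fun w => fderiv ℝ G w u) w := by
  have h1 : ContDiffAt ℝ m (fderiv ℝ G) w := h.fderiv_right (by exact_mod_cast hmn)
  exact h1.clm_apply contDiffAt_const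

end gen

theorem gT1e : G_T1e := by
  intro E _ _ N F p₀ hper hs
  have hF : PerP F := by
    rintro ⟨p, ⟨x, y⟩⟩
    have := hper p x y
    simpa [cx, cy] using this
  set D : ℝ × ℝ → (Par N × ℝ × ℝ → E) → (Par N × ℝ × ℝ → E) :=
    fun v G w => fderiv ℝ G w (0, v) with hD
  have hDper : ∀ v G, PerP G → PerP (D v G) := fun v G h => h.fd (0, v)
  have cd1 : ∀ v w, ContDiffAt ℝ 2 F w → ContDiffAt ℝ 1 (D v F) w := fun v w h =>
    cd_fd (n := 2) (m := 1) h (by norm_num) (0, v)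
  have cd2 : ∀ u v w, ContDiffAt ℝ 2 F w → ContDiffAt ℝ 0 (D u (D v F)) w := fun u v w h =>
    cd_fd (n := 1) (m := 0) (cd1 v w h) (by norm_num) (0, u)
  -- the good set
  have hgood : ∀ᶠ p in 𝓝 p₀, ∀ z : ℝ × ℝ, ContDiffAt ℝ 2 F (p, z) := by
    refine tube (q := fun w => ContDiffAt ℝ 2 F w) ?_ p₀ ?_
    · intro w
      constructor
      · apply propext
        have h1 : (fun w => F (w + cx (Par N))) = F := funext fun w => (hF w).1
        constructor
        · intro h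
          rw [← h1]
          exact ContDiffAt.comp (g := F) w h (by fun_prop)
        · intro h
          have h2 : (fun w => F (w - cx (Par N))) = F := funext fun w => by
            have := (hF (w - cx (Par N))).1
            rw [sub_add_cancel] at this
            exact this.symm
          rw [← h2]
          refine ContDiffAt.comp (g := F) (w + cx (Par N)) ?_ (by fun_prop)
          rw [add_sub_cancel_right]
          exact h
      · apply propext
        have h1 : (fun w => F (w + cy (Par N))) = F := funext fun w => (hF w).2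
        constructor
        · intro h
          rw [← h1]
          exact ContDiffAt.comp (g := F) w h (by fun_prop)
        · intro h
          have h2 : (fun w => F (w - cy (Par N))) = F := funext fun w => by
            have := (hF (w - cy (Par N))).2
            rw [sub_add_cancel] at this
            exact this.symm
          rw [← h2]
          refine ContDiffAt.comp (g := F) (w + cy (Par N)) ?_ (by fun_prop)
          rw [add_sub_cancel_right]
          exact h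
    · intro z
      exact (hs z).eventually (by simp)
  -- slices
  have hsl : ∀ p, (∀ z : ℝ × ℝ, ContDiffAt ℝ 2 F (p, z)) → ∀ v : ℝ × ℝ,
      (fun z => fderiv ℝ (fun z => F (p, z)) z v) = fun z => D v F (p, z) := by
    intro p hp v
    funext z
    exact fd_slice ((hp z).differentiableAt (by norm_num)) v
  have hsl2 : ∀ p, (∀ z : ℝ × ℝ, ContDiffAt ℝ 2 F (p, z)) → ∀ u v : ℝ × ℝ,
      (fun z => fderiv ℝ (fun z => fderiv ℝ (fun z => F (p, z)) z v) z u)
        = fun z => D u (D v F) (p, z) := by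
    intro p hp u v
    funext z
    rw [hsl p hp v]
    exact fd_slice ((cd1 v _ (hp z)).differentiableAt (by norm_num)) u
  obtain ⟨B0, hB0⟩ := bdd hF p₀ fun z => (hs z).continuousAt
  have hb1 : ∀ v, ∃ B : ℝ, ∀ᶠ p in 𝓝 p₀, ∀ z : ℝ × ℝ, ‖D v F (p, z)‖ ≤ B := fun v =>
    bdd (hDper v F hF) p₀ fun z => (cd1 v _ (hs z)).continuousAt
  have hb2 : ∀ u v, ∃ B : ℝ, ∀ᶠ p in 𝓝 p₀, ∀ z : ℝ × ℝ, ‖D u (D v F) (p, z)‖ ≤ B := fun u v =>
    bdd (hDper u _ (hDper v F hF)) p₀ fun z => (cd2 u v _ (hs z)).continuousAt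
  obtain ⟨B1, hB1⟩ := hb1 (1, 0)
  obtain ⟨B2, hB2⟩ := hb1 (0, 1)
  obtain ⟨B3, hB3⟩ := hb2 (1, 0) (1, 0)
  obtain ⟨B4, hB4⟩ := hb2 (1, 0) (0, 1)
  obtain ⟨B5, hB5⟩ := hb2 (0, 1) (1, 0)
  obtain ⟨B6, hB6⟩ := hb2 (0, 1) (0, 1)
  refine ⟨1 + |B0| + |B1| + |B2| + |B3| + |B4| + |B5| + |B6|, ?_, ?_⟩
  · have := abs_nonneg B0
    have := abs_nonneg B1
    have := abs_nonneg B2
    have := abs_nonneg B3
    have := abs_nonneg B4
    have := abs_nonneg B5
    have := abs_nonneg B6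
    linarith
  intro ε hε
  have n0 := near hF p₀ (fun z => (hs z).continuousAt) hε
  have n1 := near (hDper (1, 0) F hF) p₀ (fun z => (cd1 (1, 0) _ (hs z)).continuousAt) hε
  have n2 := near (hDper (0, 1) F hF) p₀ (fun z => (cd1 (0, 1) _ (hs z)).continuousAt) hε
  filter_upwards [hgood, hB0, hB1, hB2, hB3, hB4, hB5, hB6, n0, n1, n2] with
    p hg g0 g1 g2 g3 g4 g5 g6 m0 m1 m2
  have a0 := abs_nonneg B0
  have a1 := abs_nonneg B1
  have a2 := abs_nonneg B2
  have a3 := abs_nonneg B3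
  have a4 := abs_nonneg B4
  have a5 := abs_nonneg B5
  have a6 := abs_nonneg B6
  have b0 := le_abs_self B0
  have b1 := le_abs_self B1
  have b2 := le_abs_self B2
  have b3 := le_abs_self B3
  have b4 := le_abs_self B4
  have b5 := le_abs_self B5
  have b6 := le_abs_self B6
  have ex : dx (fun z => F (p, z)) = fun z => D (1, 0) F (p, z) := hsl p hg (1, 0)
  have ey : dy (fun z => F (p, z)) = fun z => D (0, 1) F (p, z) := hsl p hg (0, 1)
  have exx : dx (dx (fun z => F (p, z))) = fun z => D (1, 0) (D (1, 0) F) (p, z) :=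
    hsl2 p hg (1, 0) (1, 0)
  have exy : dx (dy (fun z => F (p, z))) = fun z => D (1, 0) (D (0, 1) F) (p, z) :=
    hsl2 p hg (1, 0) (0, 1)
  have eyx : dy (dx (fun z => F (p, z))) = fun z => D (0, 1) (D (1, 0) F) (p, z) :=
    hsl2 p hg (0, 1) (1, 0)
  have eyy : dy (dy (fun z => F (p, z))) = fun z => D (0, 1) (D (0, 1) F) (p, z) :=
    hsl2 p hg (0, 1) (0, 1)
  have fx : dx (fun z => F (p₀, z)) = fun z => D (1, 0) F (p₀, z) := hsl p₀ hs (1, 0)
  have fy : dy (fun z => F (p₀, z)) = fun z => D (0, 1) F (p₀, z) := hsl p₀ hs (0, 1)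
  refine ⟨⟨?_, hper p, ?_, ?_, ?_, ?_, ?_, ?_, ?_⟩, ?_⟩
  · rw [contDiff_iff_contDiffAt]
    intro z
    exact ContDiffAt.comp (g := F) (f := fun z : ℝ × ℝ => ((p, z) : Par N × ℝ × ℝ)) z (hg z)
      (by fun_prop)
  · intro z; exact (g0 z).trans (by linarith)
  · intro z; rw [ex]; exact (g1 z).trans (by linarith)
  · intro z; rw [ey]; exact (g2 z).trans (by linarith)
  · intro z; rw [exx]; exact (g3 z).trans (by linarith)
  · intro z; rw [exy]; exact (g4 z).trans (by linarith)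
  · intro z; rw [eyx]; exact (g5 z).trans (by linarith)
  · intro z; rw [eyy]; exact (g6 z).trans (by linarith)
  · intro z
    rw [ex, ey, fx, fy]
    exact ⟨m0 z, m1 z, m2 z⟩

end Pool.Agent.Helper31.LU
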